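import Mathlib
import Pool.Agent.L0h94.RZ.Defs

/-!
# The local conditions at infinity and at 2
-/

set_option autoImplicit false

namespace Pool.Agent.L0h61.RZ

open Pool.Agent.L0h94.RZ

/-! ### squares modulo 8 -/

lemma odd_sq8 {k : ℤ} (h : Odd k) : (k : ZMod 8) ^ 2 = 1 := by
  obtain ⟨j, rfl⟩ := h
  have h1 : ∀ j : ZMod 8, (2 * j + 1) ^ 2 = 1 := by decide
  push_cast
  exact h1 _

lemma not_four_dvd {e : ℤ} (h : Squarefree e) : ¬ (4 : ℤ) ∣ e := by
  intro h1
  have h2 := h 2 (by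
    have e4 : (2 : ℤ) * 2 = 4 := by norm_num
    rw [e4]
    exact h1)
  rw [Int.isUnit_iff] at h2
  omega

lemma e_of_odd {R e k : ℤ} (h : R = e * k ^ 2) (hR : Odd R) :
    Odd e ∧ Odd k ∧ (e : ZMod 8) = (R : ZMod 8) := by
  rw [h, Int.odd_mul] at hR
  obtain ⟨h1, h2⟩ := hR
  have h3 : Odd k := by
    rw [Int.odd_pow' two_ne_zero] at h2
    exact h2
  refine ⟨h1, h3, ?_⟩
  rw [h]
  push_cast
  rw [odd_sq8 h3, mul_one]

lemma e_of_four {a e k : ℤ} (h : 4 * a = e * k ^ 2) (ha : Odd a) (he : Squarefree e) :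
    Odd e ∧ (e : ZMod 8) = (a : ZMod 8) := by
  rcases Int.even_or_odd' k with ⟨j, hj | hj⟩
  · have h1 : a = e * j ^ 2 := by
      rw [hj] at h
      linarith [show e * (2 * j) ^ 2 = 4 * (e * j ^ 2) by ring]
    exact ⟨(e_of_odd h1 ha).1, (e_of_odd h1 ha).2.2⟩
  · exfalso
    apply not_four_dvd he
    rw [hj] at h
    exact ⟨a - e * j ^ 2 - e * j, by linear_combination -h⟩

lemma e_of_two {a e k : ℤ} (h : 2 * a = e * k ^ 2) (ha : Odd a) :
    ∃ f, e = 2 * f ∧ Odd f ∧ (f : ZMod 8) = (a : ZMod 8) := by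
  have hk : Odd k := by
    by_contra hk
    rw [Int.not_odd_iff_even] at hk
    obtain ⟨j, hj⟩ := hk
    have h1 : a = 2 * (e * j ^ 2) := by
      rw [hj] at h
      linarith [show e * (j + j) ^ 2 = 4 * (e * j ^ 2) by ring]
    rw [h1] at ha
    exact (Int.not_odd_iff_even.2 (even_two_mul _)) ha
  have he : Even e := by
    by_contra he
    rw [Int.not_even_iff_odd] at he
    have h1 : Odd (e * k ^ 2) := he.mul hk.pow
    rw [← h] at h1
    exact (Int.not_odd_iff_even.2 (even_two_mul _)) h1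
  obtain ⟨f, hf⟩ := he
  have h1 : a = f * k ^ 2 := by
    rw [hf] at h
    linarith [show (f + f) * k ^ 2 = 2 * (f * k ^ 2) by ring]
  exact ⟨f, by omega, (e_of_odd h1 ha).1, (e_of_odd h1 ha).2.2⟩

/-- the other factor of a square -/
lemma odd_of_sq {a e q : ℤ} (h : a * e = q ^ 2) (ha : Odd a) (he : Squarefree e) :
    Odd e ∧ (a : ZMod 8) * (e : ZMod 8) = 1 := by
  have h1 : Odd e := by
    by_contra he'
    rw [Int.not_odd_iff_even] at he'
    obtain ⟨f, hf⟩ := he'
    have hq : Even q := by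
      by_contra hq
      rw [Int.not_even_iff_odd] at hq
      have h2 : Odd (q ^ 2) := hq.pow
      rw [← h, hf] at h2
      exact (Int.not_odd_iff_even.2 ⟨a * f, by ring⟩) h2
    obtain ⟨j, hj⟩ := hq
    have h3 : a * f = 2 * j ^ 2 := by
      rw [hj, hf] at h
      linarith [show (j + j) ^ 2 = 4 * j ^ 2 by ring, show a * (f + f) = 2 * (a * f) by ring]
    have h4 : Even f := by
      by_contra hf'
      rw [Int.not_even_iff_odd] at hf'
      have h5 : Odd (a * f) := ha.mul hf'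
      rw [h3] at h5
      exact (Int.not_odd_iff_even.2 (even_two_mul _)) h5
    obtain ⟨g, hg⟩ := h4
    exact not_four_dvd he ⟨g, by omega⟩
  refine ⟨h1, ?_⟩
  have h2 : Odd (q ^ 2) := by rw [← h]; exact ha.mul h1
  have h3 : Odd q := by
    rw [Int.odd_pow' two_ne_zero] at h2
    exact h2
  have h4 := congrArg (Int.cast : ℤ → ZMod 8) h
  push_cast at h4
  rw [h4, odd_sq8 h3]

/-- an integral multiple of eight with odd squareclass is a multiple of 16 -/
lemma four_dvd_of {a e k : ℤ} (h : 4 * a = e * k ^ 2) (ha : Even a) (he : Odd e) :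
    (4 : ℤ) ∣ a := by
  have hk : Even k := by
    by_contra hk
    rw [Int.not_even_iff_odd] at hk
    have h1 : Odd (e * k ^ 2) := he.mul hk.pow
    rw [← h] at h1
    exact (Int.not_odd_iff_even.2 ⟨2 * a, by ring⟩) h1
  obtain ⟨j, hj⟩ := hk
  have h1 : a = e * j ^ 2 := by
    rw [hj] at h
    linarith [show e * (j + j) ^ 2 = 4 * (e * j ^ 2) by ring]
  have h2 : Even (j ^ 2) := by
    by_contra h2
    rw [Int.not_even_iff_odd] at h2
    have h3 : Odd (e * j ^ 2) := he.mul h2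
    rw [← h1] at h3
    exact (Int.not_odd_iff_even.2 ha) h3
  have h3 : Even j := (Int.even_pow' two_ne_zero).1 h2
  obtain ⟨i, hi⟩ := h3
  exact ⟨e * i ^ 2, by rw [h1, hi]; ring⟩

lemma mod4_of {e : ℤ} (h : (e : ZMod 8) = 1 ∨ (e : ZMod 8) = 5) : e % 4 = 1 := by
  rcases h with h | h
  · have h1 : ((e : ℤ) : ZMod 8) = ((1 : ℤ) : ZMod 8) := by rw [h]; norm_num
    rw [ZMod.intCast_eq_intCast_iff_dvd_sub] at h1
    push_cast at h1
    omega
  · have h1 : ((e : ℤ) : ZMod 8) = ((5 : ℤ) : ZMod 8) := by rw [h]; norm_num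
    rw [ZMod.intCast_eq_intCast_iff_dvd_sub] at h1
    push_cast at h1
    omega

lemma cast_odd {a : ℤ} (h : Odd a) :
    (a : ZMod 8) = 1 ∨ (a : ZMod 8) = 3 ∨ (a : ZMod 8) = 5 ∨ (a : ZMod 8) = 7 := by
  obtain ⟨j, rfl⟩ := h
  have h1 : ∀ j : ZMod 8, 2 * j + 1 = 1 ∨ 2 * j + 1 = 3 ∨ 2 * j + 1 = 5 ∨ 2 * j + 1 = 7 := by decide
  push_cast
  exact h1 _

lemma cast_even_sq {s : ℤ} (h : Even s) : (s : ZMod 8) ^ 2 = 0 ∨ (s : ZMod 8) ^ 2 = 4 := by
  obtain ⟨j, rfl⟩ := h
  have h1 : ∀ j : ZMod 8, (j + j) ^ 2 = 0 ∨ (j + j) ^ 2 = 4 := by decide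
  push_cast
  exact h1 _

section core

variable {u b w r s e1 e2 e3 k1 k2 k3 q : ℤ}

/-- the first curve -/
lemma core_false (hb : b = u + 4 * w) (hu : u % 48 = 7) (hw : w % 12 = 7) (hrs : IsCoprime r s)
    (h1 : Squarefree e1) (h2 : Squarefree e2) (h3 : Squarefree e3)
    (hR1 : r = e1 * k1 ^ 2) (hR2 : r - 4 * w * s ^ 2 = e2 * k2 ^ 2)
    (hR3 : r - b * s ^ 2 = e3 * k3 ^ 2) (hq : e1 * e2 * e3 = q ^ 2) :
    Odd e1 ∧ Odd e2 ∧ Odd e3 ∧ e3 % 4 = 1 := by
  have hwo : Odd w := by rw [Int.odd_iff]; omega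
  have hbo : Odd b := by rw [Int.odd_iff]; omega
  have hw8 : (w : ZMod 8) = 3 ∨ (w : ZMod 8) = 7 := by
    have h5 : w % 8 = 3 ∨ w % 8 = 7 := by omega
    rcases h5 with h5 | h5
    · left
      have h6 : ((w : ℤ) : ZMod 8) = ((3 : ℤ) : ZMod 8) := by
        rw [ZMod.intCast_eq_intCast_iff_dvd_sub]; push_cast; omega
      rw [h6]; norm_num
    · right
      have h6 : ((w : ℤ) : ZMod 8) = ((7 : ℤ) : ZMod 8) := by
        rw [ZMod.intCast_eq_intCast_iff_dvd_sub]; push_cast; omega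
      rw [h6]; norm_num
  have hb8 : (b : ZMod 8) = 3 := by
    have h6 : ((b : ℤ) : ZMod 8) = ((3 : ℤ) : ZMod 8) := by
      rw [ZMod.intCast_eq_intCast_iff_dvd_sub]; push_cast; omega
    rw [h6]; norm_num
  rcases Int.even_or_odd s with hs | hs
  · -- `s` even
    have hr : Odd r := by
      by_contra hr
      rw [Int.not_odd_iff_even] at hr
      have h5 := hrs.isUnit_of_dvd' hr.two_dvd hs.two_dvd
      rw [Int.isUnit_iff] at h5
      omega
    have hs2 : Even (s ^ 2) := hs.pow_of_ne_zero two_ne_zero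
    have hR2o : Odd (r - 4 * w * s ^ 2) := hr.sub_even (hs2.mul_left _)
    have hR3o : Odd (r - b * s ^ 2) := hr.sub_even (hs2.mul_left _)
    obtain ⟨o1, -, c1⟩ := e_of_odd hR1 hr
    obtain ⟨o2, -, c2⟩ := e_of_odd hR2 hR2o
    obtain ⟨o3, -, c3⟩ := e_of_odd hR3 hR3o
    have h6 := (odd_of_sq hq (o1.mul o2) h3).2
    refine ⟨o1, o2, o3, mod4_of ?_⟩
    push_cast at h6
    rw [c1, c2] at h6
    push_cast at h6
    have h7 := cast_even_sq hs
    have h8 := cast_odd hr
    clear c1 c2 c3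
    generalize (r : ZMod 8) = R at *
    generalize (s : ZMod 8) = S at *
    generalize (w : ZMod 8) = W at *
    generalize (e3 : ZMod 8) = Z at *
    generalize S ^ 2 = S2 at *
    revert R W S2 Z
    decide
  · have hs2 : Odd (s ^ 2) := hs.pow
    have hs8 := odd_sq8 hs
    rcases Int.even_or_odd' r with ⟨r', hr | hr⟩
    · -- `r` even
      have hR3o : Odd (r - b * s ^ 2) := by
        rw [hr]
        exact (even_two_mul r').sub_odd (hbo.mul hs2)
      obtain ⟨o3, -, c3⟩ := e_of_odd hR3 hR3o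
      rcases Int.even_or_odd' r' with ⟨r'', hr' | hr'⟩
      · -- `r = 4 r''`
        have hr4 : r = 4 * r'' := by omega
        have hR1' : 4 * r'' = e1 * k1 ^ 2 := by rw [← hr4]; exact hR1
        have hR2' : 4 * (r'' - w * s ^ 2) = e2 * k2 ^ 2 := by rw [← hR2, hr4]; ring
        have hws : Odd (w * s ^ 2) := hwo.mul hs2
        have ho : Odd e1 ∧ Odd e2 := by
          rcases Int.even_or_odd r'' with h5 | h5
          · have o2 := (e_of_four hR2' (h5.sub_odd hws) h2).1
            exact ⟨(odd_of_sq (a := e2 * e3) (e := e1) (q := q) (by rw [← hq]; ring)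
              (o2.mul o3) h1).1, o2⟩
          · have o1 := (e_of_four hR1' h5 h1).1
            exact ⟨o1, (odd_of_sq (a := e1 * e3) (e := e2) (q := q) (by rw [← hq]; ring)
              (o1.mul o3) h2).1⟩
        refine ⟨ho.1, ho.2, o3, mod4_of ?_⟩
        rw [c3, hr4]
        push_cast
        rw [hs8, hb8]
        generalize (r'' : ZMod 8) = R at *
        revert R
        decide
      · -- `r = 2 r'`, `r'` odd
        exfalso
        have hro : Odd r' := ⟨r'', by omega⟩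
        have hR1' : 2 * r' = e1 * k1 ^ 2 := by rw [← hR1, hr]
        have hR2' : 2 * (r' - 2 * w * s ^ 2) = e2 * k2 ^ 2 := by rw [← hR2, hr]; ring
        obtain ⟨f1, g1, o1, c1⟩ := e_of_two hR1' hro
        obtain ⟨f2, g2, o2, c2⟩ := e_of_two hR2' (hro.sub_even ⟨w * s ^ 2, by ring⟩)
        have hqe : Even q := by
          by_contra hqe
          rw [Int.not_even_iff_odd] at hqe
          have h5 : Odd (q ^ 2) := hqe.pow
          rw [← hq, g1] at h5
          exact (Int.not_odd_iff_even.2 ⟨f1 * e2 * e3, by ring⟩) h5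
        obtain ⟨j, hj⟩ := hqe
        have h5 : f1 * f2 * e3 = j ^ 2 := by
          rw [g1, g2, hj] at hq
          linarith [show 2 * f1 * (2 * f2) * e3 = 4 * (f1 * f2 * e3) by ring,
            show (j + j) ^ 2 = 4 * j ^ 2 by ring]
        have h6 := (odd_of_sq h5 (o1.mul o2) h3).2
        push_cast at h6
        rw [c1, c2, c3, hr] at h6
        push_cast at h6
        rw [hs8, hb8] at h6
        have h8 := cast_odd hro
        clear c1 c2 c3
        generalize (r' : ZMod 8) = R at *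
        generalize (w : ZMod 8) = W at *
        revert R W
        decide
    · -- `r` odd
      have hro : Odd r := ⟨r', hr⟩
      have hR2o : Odd (r - 4 * w * s ^ 2) := hro.sub_even ⟨2 * w * s ^ 2, by ring⟩
      obtain ⟨o1, -, c1⟩ := e_of_odd hR1 hro
      obtain ⟨o2, -, c2⟩ := e_of_odd hR2 hR2o
      obtain ⟨o3, h6⟩ := odd_of_sq hq (o1.mul o2) h3
      refine ⟨o1, o2, o3, mod4_of ?_⟩
      push_cast at h6
      rw [c1, c2] at h6
      push_cast at h6
      rw [hs8] at h6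
      have h8 := cast_odd hro
      clear hr c1 c2
      generalize (r : ZMod 8) = R at *
      generalize (w : ZMod 8) = W at *
      generalize (e3 : ZMod 8) = Z at *
      revert R W Z
      decide

/-- the second curve -/
lemma core_true (hb : b = u + 4 * w) (hu : u % 48 = 7) (hw : w % 12 = 7) (hrs : IsCoprime r s)
    (h1 : Squarefree e1) (h2 : Squarefree e2) (h3 : Squarefree e3)
    (hR1 : r = e1 * k1 ^ 2) (hR2 : r - u * s ^ 2 = e2 * k2 ^ 2)
    (hR3 : r - b * s ^ 2 = e3 * k3 ^ 2) (hq : e1 * e2 * e3 = q ^ 2) :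
    Odd e1 ∧ Odd e2 ∧ Odd e3 ∧ e3 % 4 = 1 := by
  have hwo : Odd w := by rw [Int.odd_iff]; omega
  have hbo : Odd b := by rw [Int.odd_iff]; omega
  have huo : Odd u := by rw [Int.odd_iff]; omega
  have hw8 : (w : ZMod 8) = 3 ∨ (w : ZMod 8) = 7 := by
    have h5 : w % 8 = 3 ∨ w % 8 = 7 := by omega
    rcases h5 with h5 | h5
    · left
      have h6 : ((w : ℤ) : ZMod 8) = ((3 : ℤ) : ZMod 8) := by
        rw [ZMod.intCast_eq_intCast_iff_dvd_sub]; push_cast; omega
      rw [h6]; norm_num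
    · right
      have h6 : ((w : ℤ) : ZMod 8) = ((7 : ℤ) : ZMod 8) := by
        rw [ZMod.intCast_eq_intCast_iff_dvd_sub]; push_cast; omega
      rw [h6]; norm_num
  have hb8 : (b : ZMod 8) = 3 := by
    have h6 : ((b : ℤ) : ZMod 8) = ((3 : ℤ) : ZMod 8) := by
      rw [ZMod.intCast_eq_intCast_iff_dvd_sub]; push_cast; omega
    rw [h6]; norm_num
  have hu8 : (u : ZMod 8) = 7 := by
    have h6 : ((u : ℤ) : ZMod 8) = ((7 : ℤ) : ZMod 8) := by
      rw [ZMod.intCast_eq_intCast_iff_dvd_sub]; push_cast; omega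
    rw [h6]; norm_num
  rcases Int.even_or_odd s with hs | hs
  · -- `s` even
    have hr : Odd r := by
      by_contra hr
      rw [Int.not_odd_iff_even] at hr
      have h5 := hrs.isUnit_of_dvd' hr.two_dvd hs.two_dvd
      rw [Int.isUnit_iff] at h5
      omega
    have hs2 : Even (s ^ 2) := hs.pow_of_ne_zero two_ne_zero
    have hR2o : Odd (r - u * s ^ 2) := hr.sub_even (hs2.mul_left _)
    have hR3o : Odd (r - b * s ^ 2) := hr.sub_even (hs2.mul_left _)
    obtain ⟨o1, -, c1⟩ := e_of_odd hR1 hr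
    obtain ⟨o2, -, c2⟩ := e_of_odd hR2 hR2o
    obtain ⟨o3, -, c3⟩ := e_of_odd hR3 hR3o
    have h6 := (odd_of_sq hq (o1.mul o2) h3).2
    refine ⟨o1, o2, o3, mod4_of ?_⟩
    push_cast at h6
    rw [c1, c2, c3] at h6
    rw [c3]
    push_cast at h6 ⊢
    rw [hu8, hb8] at h6
    rw [hb8]
    have h7 := cast_even_sq hs
    have h8 := cast_odd hr
    clear hw8 c1 c2 c3
    generalize (r : ZMod 8) = R at *
    generalize (s : ZMod 8) = S at *
    generalize S ^ 2 = S2 at *
    revert R S2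
    decide
  · have hs2 : Odd (s ^ 2) := hs.pow
    have hs8 := odd_sq8 hs
    have hws : Odd (w * s ^ 2) := hwo.mul hs2
    rcases Int.even_or_odd' r with ⟨r', hr | hr⟩
    · -- `r` even
      have hR2o : Odd (r - u * s ^ 2) := by
        rw [hr]
        exact (even_two_mul r').sub_odd (huo.mul hs2)
      have hR3o : Odd (r - b * s ^ 2) := by
        rw [hr]
        exact (even_two_mul r').sub_odd (hbo.mul hs2)
      obtain ⟨o2, -, c2⟩ := e_of_odd hR2 hR2o
      obtain ⟨o3, -, c3⟩ := e_of_odd hR3 hR3o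
      have o1 := (odd_of_sq (a := e2 * e3) (e := e1) (q := q) (by rw [← hq]; ring)
        (o2.mul o3) h1).1
      refine ⟨o1, o2, o3, mod4_of ?_⟩
      -- `r` is a multiple of `4`
      have hk1 : Even k1 := by
        by_contra hk
        rw [Int.not_even_iff_odd] at hk
        have h5 : Odd (e1 * k1 ^ 2) := o1.mul hk.pow
        rw [← hR1, hr] at h5
        exact (Int.not_odd_iff_even.2 (even_two_mul _)) h5
      obtain ⟨j, hj⟩ := hk1
      have hr4 : r = 4 * (e1 * j ^ 2) := by rw [hR1, hj]; ring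
      rw [c3, hr4]
      push_cast
      rw [hs8, hb8]
      generalize (e1 : ZMod 8) * (j : ZMod 8) ^ 2 = R
      revert R
      decide
    · -- `r` odd
      have hro : Odd r := ⟨r', hr⟩
      obtain ⟨o1, -, c1⟩ := e_of_odd hR1 hro
      obtain ⟨cu, hcu⟩ : ∃ c : ℤ, u * s ^ 2 = 8 * c + 7 := by
        have h5 : ((u * s ^ 2 : ℤ) : ZMod 8) = ((7 : ℤ) : ZMod 8) := by
          push_cast
          rw [hs8, hu8]; norm_num
        rw [ZMod.intCast_eq_intCast_iff_dvd_sub] at h5
        obtain ⟨c, hc⟩ := h5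
        exact ⟨-c, by push_cast at hc; linarith⟩
      have hbs : b * s ^ 2 = u * s ^ 2 + 4 * (w * s ^ 2) := by rw [hb]; ring
      rcases Int.even_or_odd' r' with ⟨r'', hr' | hr'⟩
      · -- `r = 1 mod 4`
        exfalso
        have hR2' : 2 * (2 * r'' - 4 * cu - 3) = e2 * k2 ^ 2 := by rw [← hR2]; linarith
        have hR3' : 2 * (2 * r'' - 4 * cu - 3 - 2 * (w * s ^ 2)) = e3 * k3 ^ 2 := by
          rw [← hR3]; linarith
        obtain ⟨f2, g2, p2, c2⟩ := e_of_two hR2' (by rw [Int.odd_iff]; omega)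
        obtain ⟨f3, g3, p3, c3⟩ := e_of_two hR3' (by rw [Int.odd_iff]; omega)
        have hqe : Even q := by
          by_contra hqe
          rw [Int.not_even_iff_odd] at hqe
          have h5 : Odd (q ^ 2) := hqe.pow
          rw [← hq, g2] at h5
          exact (Int.not_odd_iff_even.2 ⟨e1 * f2 * e3, by ring⟩) h5
        obtain ⟨j, hj⟩ := hqe
        have h5 : e1 * (f2 * f3) = j ^ 2 := by
          rw [g2, g3, hj] at hq
          linarith [show e1 * (2 * f2) * (2 * f3) = 4 * (e1 * (f2 * f3)) by ring,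
            show (j + j) ^ 2 = 4 * j ^ 2 by ring]
        have hjo : Odd j := by
          have h6 : Odd (j ^ 2) := by rw [← h5]; exact o1.mul (p2.mul p3)
          rw [Int.odd_pow' two_ne_zero] at h6
          exact h6
        have h6 := congrArg (Int.cast : ℤ → ZMod 8) h5
        push_cast at h6
        rw [odd_sq8 hjo, c1, c2, c3, hr, hr'] at h6
        push_cast at h6
        rw [hs8] at h6
        generalize (r'' : ZMod 8) = R at *
        generalize (w : ZMod 8) = W at *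
        generalize (cu : ZMod 8) = C at *
        clear c1 c2 c3
        revert R W C
        decide
      · -- `r = 3 mod 4`
        have hR2' : 4 * (r'' - 2 * cu - 1) = e2 * k2 ^ 2 := by rw [← hR2]; linarith
        have hR3' : 4 * (r'' - 2 * cu - 1 - w * s ^ 2) = e3 * k3 ^ 2 := by
          rw [← hR3]; linarith
        rcases Int.even_or_odd (r'' - 2 * cu - 1) with h5 | h5
        · obtain ⟨o3, c3⟩ := e_of_four hR3' (h5.sub_odd hws) h3
          have o2 := (odd_of_sq (a := e1 * e3) (e := e2) (q := q) (by rw [← hq]; ring)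
            (o1.mul o3) h2).1
          obtain ⟨g, hg⟩ := four_dvd_of hR2' h5 o2
          refine ⟨o1, o2, o3, mod4_of ?_⟩
          rw [c3, hg]
          push_cast
          rw [hs8]
          generalize (g : ZMod 8) = R at *
          generalize (w : ZMod 8) = W at *
          clear c3
          revert R W
          decide
        · obtain ⟨o2, c2⟩ := e_of_four hR2' h5 h2
          obtain ⟨o3, c4⟩ := odd_of_sq hq (o1.mul o2) h3
          obtain ⟨g, hg⟩ := four_dvd_of hR3' (h5.sub_odd hws) o3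
          have ha : r'' - 2 * cu - 1 = 4 * g + w * s ^ 2 := by linarith
          have hr8 : r = 8 * cu + 7 + 4 * (4 * g + w * s ^ 2) := by rw [← ha]; omega
          refine ⟨o1, o2, o3, mod4_of ?_⟩
          push_cast at c4
          rw [c1, c2, ha, hr8] at c4
          push_cast at c4
          rw [hs8] at c4
          clear c1 c2 hr8 ha hr'
          generalize (g : ZMod 8) = R at *
          generalize (w : ZMod 8) = W at *
          generalize (cu : ZMod 8) = C at *
          generalize (e3 : ZMod 8) = Z at *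
          revert R W C Z
          decide

end core

/-- a rational point in terms of integers -/
lemma to_int (m b : ℤ) {x y : ℚ} (hy : y ≠ 0) (h : y ^ 2 = x * (x - m) * (x - b)) :
    ∃ r s t : ℤ, 0 < s ∧ IsCoprime r s ∧ x * (s : ℚ) ^ 2 = r ∧ t ≠ 0 ∧
      r * (r - m * s ^ 2) * (r - b * s ^ 2) = t ^ 2 := by
  set a : ℤ := x.num with ha
  set d : ℤ := (x.den : ℤ) with hd
  have hd0 : 0 < d := by rw [hd]; exact_mod_cast x.den_pos
  have hdq : (d : ℚ) ≠ 0 := by exact_mod_cast hd0.ne'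
  have hx : x * (d : ℚ) = a := by
    rw [ha, hd]
    exact_mod_cast Rat.mul_den_eq_num x
  have hcop : IsCoprime a d := by
    rw [Int.isCoprime_iff_gcd_eq_one, ha, hd]
    exact x.reduced
  set g : ℤ := a * (a - m * d) * (a - b * d) with hg
  have hdg : IsCoprime d g := by
    have h1 : IsCoprime d a := hcop.symm
    have h2 : IsCoprime d (a - m * d) := by
      have h3 := h1.add_mul_left_right (-m)
      rwa [show a + d * -m = a - m * d by ring] at h3
    have h3 : IsCoprime d (a - b * d) := by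
      have h3 := h1.add_mul_left_right (-b)
      rwa [show a + d * -b = a - b * d by ring] at h3
    exact (h1.mul_right h2).mul_right h3
  have hgq : y ^ 2 * (d : ℚ) ^ 3 = (g : ℚ) := by
    rw [h, hg]
    push_cast
    rw [← hx]
    ring
  have hsq : IsSquare (d * g) := by
    rw [← Rat.isSquare_intCast_iff]
    refine ⟨y * (d : ℚ) ^ 2, ?_⟩
    push_cast
    rw [← hgq]
    ring
  obtain ⟨z, hz⟩ := hsq
  obtain ⟨a0, h0⟩ := Int.sq_of_isCoprime hdg (by rw [hz, sq])
  have h1 : d = a0 ^ 2 := by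
    rcases h0 with h0 | h0
    · exact h0
    · exfalso
      nlinarith [sq_nonneg a0]
  have ha0 : a0 ≠ 0 := by
    rintro rfl
    rw [h1] at hd0
    norm_num at hd0
  have hds : d = |a0| ^ 2 := by rw [sq_abs]; exact h1
  have hgs : IsSquare g := by
    rw [← Rat.isSquare_intCast_iff]
    refine ⟨y * (|a0| : ℤ) ^ 3, ?_⟩
    rw [← hgq, hds]
    push_cast
    ring
  obtain ⟨t, ht⟩ := hgs
  refine ⟨a, |a0|, t, abs_pos.2 ha0, ?_, ?_, ?_, ?_⟩
  · rw [hds] at hcop
    exact (IsCoprime.pow_right_iff two_pos).1 hcop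
  · rw [← hx, hds]
    push_cast
    ring
  · rintro rfl
    rw [mul_zero] at ht
    rw [ht, Int.cast_zero] at hgq
    exact (mul_ne_zero (pow_ne_zero 2 hy) (pow_ne_zero 3 hdq)) hgq
  · rw [← hds, sq t, ← ht]

lemma rep {R e : ℤ} (he : Squarefree e) (h : IsSquare (R * e)) : ∃ k, R = e * k ^ 2 := by
  obtain ⟨k, hk⟩ := h
  have h1 : e ∣ k ^ 2 := ⟨R, by rw [sq, ← hk, mul_comm]⟩
  rw [he.dvd_pow_iff_dvd two_ne_zero] at h1
  obtain ⟨j, rfl⟩ := h1
  refine ⟨j, ?_⟩
  have h2 : R * e = e * j ^ 2 * e := by rw [hk]; ring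
  exact mul_right_cancel₀ he.ne_zero h2

lemma rep' {x : ℚ} {R s e : ℤ} (hs : s ≠ 0) (hx : x * (s : ℚ) ^ 2 = R) (he : Rp x e) :
    ∃ k, R = e * k ^ 2 := by
  obtain ⟨h1, z, hz⟩ := he
  refine rep h1 ?_
  rw [← Rat.isSquare_intCast_iff]
  refine ⟨z * s, ?_⟩
  push_cast
  rw [← hx]
  linear_combination (s : ℚ) ^ 2 * hz

theorem loc2 : S_LOC2 := by
  intro o u b w hG x y e1 e2 e3 hy hxy hr1 hr2 hr3
  obtain ⟨hb, hsf, hu, hw⟩ := hG
  have hbZ : (b : ℤ) = u + 4 * w := by exact_mod_cast hb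
  have huZ : (u : ℤ) % 48 = 7 := by exact_mod_cast hu
  have hwZ : (w : ℤ) % 12 = 7 := by exact_mod_cast hw
  have hm0 : 0 < mo o u w := by
    unfold mo
    split_ifs <;> omega
  have hmb : mo o u w < b := by
    unfold mo
    split_ifs <;> omega
  have hxy' : y ^ 2 = x * (x - (mo o u w : ℤ)) * (x - ((b : ℤ) : ℚ)) := by
    rw [hxy]; push_cast; ring
  obtain ⟨r, s, t, hs, hrs, hx, ht, hprod⟩ := to_int (mo o u w) b hy hxy'
  have hs0 : s ≠ 0 := hs.ne'
  obtain ⟨k1, hk1⟩ := rep' hs0 hx hr1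
  have hx2 : (x - (mo o u w : ℤ)) * (s : ℚ) ^ 2 = ((r - mo o u w * s ^ 2 : ℤ) : ℚ) := by
    push_cast
    rw [← hx]; ring
  have hx3 : (x - (b : ℚ)) * (s : ℚ) ^ 2 = ((r - b * s ^ 2 : ℤ) : ℚ) := by
    push_cast
    rw [← hx]; ring
  obtain ⟨k2, hk2⟩ := rep' hs0 hx2 hr2
  obtain ⟨k3, hk3⟩ := rep' hs0 hx3 hr3
  have hne : r ≠ 0 ∧ r - mo o u w * s ^ 2 ≠ 0 ∧ r - b * s ^ 2 ≠ 0 := by
    have h0 : r * (r - mo o u w * s ^ 2) * (r - b * s ^ 2) ≠ 0 := by
      rw [hprod]; exact pow_ne_zero 2 ht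
    exact ⟨left_ne_zero_of_mul (left_ne_zero_of_mul h0),
      right_ne_zero_of_mul (left_ne_zero_of_mul h0), right_ne_zero_of_mul h0⟩
  have hkk : k1 ≠ 0 ∧ k2 ≠ 0 ∧ k3 ≠ 0 := by
    refine ⟨?_, ?_, ?_⟩
    · rintro rfl; exact hne.1 (by rw [hk1]; ring)
    · rintro rfl; exact hne.2.1 (by rw [hk2]; ring)
    · rintro rfl; exact hne.2.2 (by rw [hk3]; ring)
  obtain ⟨q, hq⟩ : ∃ q, e1 * e2 * e3 = q ^ 2 := by
    have h1 : t ^ 2 = (k1 * k2 * k3) ^ 2 * (e1 * e2 * e3) := by
      rw [← hprod, hk2, hk3, hk1]; ring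
    have h2 : (k1 * k2 * k3) ^ 2 ∣ t ^ 2 := ⟨_, h1⟩
    rw [Int.pow_dvd_pow_iff two_ne_zero] at h2
    obtain ⟨q, hq⟩ := h2
    refine ⟨q, ?_⟩
    rw [hq, mul_pow] at h1
    exact (mul_left_cancel₀ (pow_ne_zero 2 (mul_ne_zero (mul_ne_zero hkk.1 hkk.2.1) hkk.2.2))
      h1).symm
  have hs2 : 0 < s ^ 2 := by positivity
  have hord1 : r - mo o u w * s ^ 2 < r := by
    have := mul_pos hm0 hs2
    linarith
  have hord2 : r - b * s ^ 2 < r - mo o u w * s ^ 2 := by
    have := mul_lt_mul_of_pos_right hmb hs2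
    linarith
  have ht2 : 0 < t ^ 2 := by positivity
  rw [← hprod] at ht2
  have hR1 : 0 < r := by
    by_contra hcon
    have h1 : r < 0 := lt_of_le_of_ne (not_lt.1 hcon) hne.1
    have h2 : r - mo o u w * s ^ 2 < 0 := hord1.trans h1
    have h3 : r - b * s ^ 2 < 0 := hord2.trans h2
    have h4 := mul_pos_of_neg_of_neg h1 h2
    have h5 := mul_neg_of_pos_of_neg h4 h3
    linarith
  have hR23 : 0 < (r - mo o u w * s ^ 2) * (r - b * s ^ 2) := by
    rw [mul_assoc] at ht2
    exact (mul_pos_iff_of_pos_left hR1).1 ht2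
  have he1 : 0 < e1 := by
    rw [hk1] at hR1
    have h1 : 0 < k1 ^ 2 := by have := hkk.1; positivity
    exact (mul_pos_iff_of_pos_right h1).1 hR1
  have he23 : 0 < e2 * e3 := by
    have h1 : 0 < k2 ^ 2 * k3 ^ 2 := by
      have := hkk.2.1
      have := hkk.2.2
      positivity
    have h2 : (r - mo o u w * s ^ 2) * (r - b * s ^ 2) = e2 * e3 * (k2 ^ 2 * k3 ^ 2) := by
      rw [hk2, hk3]; ring
    rw [h2] at hR23
    exact (mul_pos_iff_of_pos_right h1).1 hR23
  refine ⟨he1, he23, ?_⟩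
  cases o with
  | false =>
    have h1 : mo false u w = 4 * (w : ℤ) := rfl
    rw [h1] at hk2
    exact core_false hbZ huZ hwZ hrs hr1.1 hr2.1 hr3.1 hk1 hk2 hk3 hq
  | true =>
    have h1 : mo true u w = (u : ℤ) := rfl
    rw [h1] at hk2
    exact core_true hbZ huZ hwZ hrs hr1.1 hr2.1 hr3.1 hk1 hk2 hk3 hq

end Pool.Agent.L0h61.RZ
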