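import Pool.Agent.L0h94.RZ.DefsS
import Pool.Agent.L0h47.RZ.LOCP

/-!
# Project RZ: the local conditions at the odd primes, for points over `ℚ_p`
-/

set_option autoImplicit false

namespace Pool.Agent.L0h61.RZ

open Finset Pool.Agent.W262.RK Pool.Agent.L0h94.RZ Pool.Agent.L0h47.RZ
open Pool.Agent.W22.RK (isSquare_one_add)

section val

variable {p : ℕ} [hp : Fact p.Prime]

lemma nrm {a : ℚ_[p]} (ha : a ≠ 0) : ‖a‖ = (p : ℝ) ^ (-a.valuation) :=
  Padic.norm_eq_zpow_neg_valuation ha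

lemma one_lt_p : (1 : ℝ) < p := by exact_mod_cast hp.out.one_lt

lemma lt_iff {a b : ℚ_[p]} (ha : a ≠ 0) (hb : b ≠ 0) : a.valuation < b.valuation ↔ ‖b‖ < ‖a‖ := by
  rw [nrm ha, nrm hb, zpow_lt_zpow_iff_right₀ one_lt_p]
  omega

lemma eq_iff {a b : ℚ_[p]} (ha : a ≠ 0) (hb : b ≠ 0) : a.valuation = b.valuation ↔ ‖a‖ = ‖b‖ := by
  rw [nrm ha, nrm hb]
  constructor
  · intro h
    rw [h]
  · intro h
    have := zpow_right_injective₀ (by linarith [one_lt_p (p := p)]) one_lt_p.ne' h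
    omega

/-- valuation of a sum -/
lemma w_add {a b : ℚ_[p]} (ha : a ≠ 0) (hb : b ≠ 0) (hab : a + b ≠ 0)
    (h : a.valuation < b.valuation) : (a + b).valuation = a.valuation := by
  rw [lt_iff ha hb] at h
  rw [eq_iff hab ha, Padic.add_eq_max_of_ne h.ne', max_eq_left h.le]

lemma w_add_le {a b : ℚ_[p]} (ha : a ≠ 0) (hb : b ≠ 0) (hab : a + b ≠ 0) {m : ℤ}
    (h1 : m ≤ a.valuation) (h2 : m ≤ b.valuation) : m ≤ (a + b).valuation := by
  have h3 := Padic.nonarchimedean a b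
  rw [nrm ha, nrm hb, nrm hab] at h3
  rcases le_max_iff.1 h3 with h4 | h4
  · rw [zpow_le_zpow_iff_right₀ one_lt_p] at h4
    omega
  · rw [zpow_le_zpow_iff_right₀ one_lt_p] at h4
    omega

lemma w_mul {a b : ℚ_[p]} (ha : a ≠ 0) (hb : b ≠ 0) :
    (a * b).valuation = a.valuation + b.valuation := Padic.valuation_mul ha hb

lemma w_neg (a : ℚ_[p]) : (-a).valuation = a.valuation := by
  by_cases ha : a = 0
  · rw [ha, neg_zero]
  · rw [eq_iff (neg_ne_zero.2 ha) ha, norm_neg]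

lemma w_int {a : ℤ} (h : ¬ (p : ℤ) ∣ a) : ((a : ℤ) : ℚ_[p]).valuation = 0 := by
  rw [Padic.valuation_intCast, padicValInt.eq_zero_of_not_dvd h]
  rfl

lemma w_one {a : ℤ} (hpA : (p : ℤ) ∣ a) (hpA2 : ¬ (p : ℤ) ^ 2 ∣ a) :
    ((a : ℤ) : ℚ_[p]).valuation = 1 := by
  have h0 : a ≠ 0 := by
    rintro rfl
    exact hpA2 (dvd_zero _)
  rw [Padic.valuation_intCast]
  have h1 := (padicValInt_dvd_iff (p := p) 1 a).1 (by simpa using hpA)
  have h2 := mt (padicValInt_dvd_iff (p := p) 2 a).2 hpA2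
  push Not at h2
  have h3 := h2.2
  rcases h1 with h1 | h1
  · exact absurd h1 h0
  · have : padicValInt p a = 1 := by omega
    rw [this]
    norm_num

lemma w_mul3 {x a b y : ℚ_[p]} (hx : x ≠ 0) (ha : a ≠ 0) (hb : b ≠ 0) (hy : y ≠ 0)
    (hxy : y ^ 2 = x * a * b) :
    x.valuation + a.valuation + b.valuation = 2 * y.valuation := by
  have h1 : (y ^ 2).valuation = 2 * y.valuation := by
    rw [pow_two, w_mul hy hy]
    ring
  rw [← h1, hxy, w_mul (mul_ne_zero hx ha) hb, w_mul hx ha]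

lemma sq_one_add (hp2 : p ≠ 2) {r : ℚ_[p]} (hr : r = 0 ∨ 0 < r.valuation) :
    IsSquare (1 + r) := by
  apply isSquare_one_add hp2
  rcases hr with rfl | hr
  · simp
  · by_cases h0 : r = 0
    · subst h0
      simp
    rw [nrm h0]
    exact zpow_lt_one_of_neg₀ one_lt_p (by omega)

/-- the square class -/
def Rq (x : ℚ_[p]) (e : ℤ) : Prop := Squarefree e ∧ IsSquare (x * (e : ℚ_[p]))

lemma val_sf {e : ℤ} (he : Squarefree e) :
    ((e : ℤ) : ℚ_[p]).valuation = if (p : ℤ) ∣ e then 1 else 0 := by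
  by_cases h : (p : ℤ) ∣ e
  · rw [if_pos h]
    refine w_one h fun h2 => ?_
    rw [pow_two] at h2
    have h3 := he _ h2
    rw [Int.isUnit_iff] at h3
    have := hp.out.one_lt
    omega
  · rw [if_neg h]
    exact w_int h

lemma rq_dvd {x : ℚ_[p]} {e : ℤ} (h : Rq x e) (hx : x ≠ 0) :
    (p : ℤ) ∣ e ↔ ¬ Even x.valuation := by
  obtain ⟨hs, r, hr⟩ := h
  have he0 : ((e : ℤ) : ℚ_[p]) ≠ 0 := by exact_mod_cast hs.ne_zero
  have hr0 : r ≠ 0 := by
    rintro rfl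
    exact mul_ne_zero hx he0 (by rw [hr]; ring)
  have h1 : x.valuation + ((e : ℤ) : ℚ_[p]).valuation = r.valuation + r.valuation := by
    rw [← w_mul hx he0, hr, w_mul hr0 hr0]
  rw [val_sf hs] at h1
  by_cases h : (p : ℤ) ∣ e
  · rw [if_pos h] at h1
    refine ⟨fun _ h2 => ?_, fun _ => h⟩
    obtain ⟨k, hk⟩ := h2
    omega
  · rw [if_neg h] at h1
    refine ⟨fun h' => absurd h' h, fun h2 => absurd ?_ h2⟩
    exact ⟨r.valuation, by omega⟩

lemma rq_nr {x : ℚ_[p]} {e c : ℤ} (h : Rq x e) (hx : x ≠ 0)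
    (hc : ¬ (p : ℤ) ∣ c) (he : ¬ (p : ℤ) ∣ e) (hsq : IsSquare ((c : ℚ_[p]) * x)) :
    nr p e = nr p c := by
  obtain ⟨hs, r, hr⟩ := h
  have hp' : p.Prime := Fact.out
  have hce : ¬ (p : ℤ) ∣ c * e :=
    fun h => ((Nat.prime_iff_prime_int.1 hp').dvd_or_dvd h).elim hc he
  have h1 : IsSquare (((c * e : ℤ) : ℚ) : ℚ_[p]) := by
    obtain ⟨s, hs'⟩ := hsq
    refine ⟨s * r / x, ?_⟩
    have e3 : (((c * e : ℤ) : ℚ) : ℚ_[p]) = (c : ℚ_[p]) * (e : ℚ_[p]) := by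
      push_cast; ring
    rw [e3]
    field_simp
    calc _ = ((c : ℚ_[p]) * x) * (x * (e : ℚ_[p])) := by ring
      _ = _ := by rw [hs', hr]; ring
  have h2 := Pool.Agent.W599.RK.jac_of_isSquare p (c * e) hce h1
  have h3 : nr p (c * e) = 0 := by
    unfold nr
    rw [h2, if_neg (by norm_num)]
  rw [nr_mul hp' hc he] at h3
  have h4 : nr p e = -nr p c := by linear_combination h3
  rw [h4]
  exact ZMod.neg_eq_self_mod_two _

/-- good primes -/
theorem goodQ {A B : ℤ} (hAB : ¬ (p : ℤ) ∣ 2 * A * B * (A - B)) {x y : ℚ_[p]} (hy : y ≠ 0)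
    (hxy : y ^ 2 = x * (x - (A : ℚ_[p])) * (x - (B : ℚ_[p]))) :
    Even x.valuation ∧ Even (x - (A : ℚ_[p])).valuation ∧ Even (x - (B : ℚ_[p])).valuation := by
  have hA : ¬ (p : ℤ) ∣ A := fun h => hAB (Dvd.dvd.mul_right (Dvd.dvd.mul_right
    (Dvd.dvd.mul_left h 2) B) _)
  have hB : ¬ (p : ℤ) ∣ B := fun h => hAB (Dvd.dvd.mul_right (Dvd.dvd.mul_left h _) _)
  have hC : ¬ (p : ℤ) ∣ (A - B) := fun h => hAB (Dvd.dvd.mul_left h _)
  have hA0 : (A : ℚ_[p]) ≠ 0 := by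
    intro h
    apply hA
    have : A = 0 := by exact_mod_cast h
    simp [this]
  have hB0 : (B : ℚ_[p]) ≠ 0 := by
    intro h
    apply hB
    have : B = 0 := by exact_mod_cast h
    simp [this]
  have hC0 : ((A : ℚ_[p]) - B) ≠ 0 := by
    intro h
    apply hC
    have : A - B = 0 := by exact_mod_cast h
    simp [this]
  have hy2 : y ^ 2 ≠ 0 := pow_ne_zero 2 hy
  rw [hxy] at hy2
  have hx : x ≠ 0 := left_ne_zero_of_mul (left_ne_zero_of_mul hy2)
  have hxA : x - A ≠ 0 := right_ne_zero_of_mul (left_ne_zero_of_mul hy2)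
  have hxB : x - B ≠ 0 := right_ne_zero_of_mul hy2
  have vA : (A : ℚ_[p]).valuation = 0 := w_int hA
  have vB : (B : ℚ_[p]).valuation = 0 := w_int hB
  have vC : ((A : ℚ_[p]) - B).valuation = 0 := by
    have := w_int (p := p) hC
    push_cast at this
    exact this
  have vA' : (-(A : ℚ_[p])).valuation = 0 := by rw [w_neg, vA]
  have vB' : (-(B : ℚ_[p])).valuation = 0 := by rw [w_neg, vB]
  have hsum := w_mul3 hx hxA hxB hy hxy
  have eA : x + -(A : ℚ_[p]) = x - A := by ring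
  have eB : x + -(B : ℚ_[p]) = x - B := by ring
  rcases lt_trichotomy x.valuation 0 with h | h | h
  · have h1 : (x - (A : ℚ_[p])).valuation = x.valuation := by
      rw [← eA]
      exact w_add hx (neg_ne_zero.2 hA0) (by rw [eA]; exact hxA) (by rw [vA']; exact h)
    have h2 : (x - (B : ℚ_[p])).valuation = x.valuation := by
      rw [← eB]
      exact w_add hx (neg_ne_zero.2 hB0) (by rw [eB]; exact hxB) (by rw [vB']; exact h)
    rw [h1, h2] at hsum ⊢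
    have : Even x.valuation := by
      rw [Int.even_iff]
      omega
    exact ⟨this, this, this⟩
  · have h1 : 0 ≤ (x - (A : ℚ_[p])).valuation := by
      rw [← eA]
      exact w_add_le hx (neg_ne_zero.2 hA0) (by rw [eA]; exact hxA) h.ge vA'.ge
    have h2 : 0 ≤ (x - (B : ℚ_[p])).valuation := by
      rw [← eB]
      exact w_add_le hx (neg_ne_zero.2 hB0) (by rw [eB]; exact hxB) h.ge vB'.ge
    rw [h] at hsum ⊢
    rcases h1.eq_or_lt with h3 | h3
    · rw [← h3] at hsum ⊢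
      refine ⟨Even.zero, Even.zero, ?_⟩
      rw [Int.even_iff]
      omega
    · have h4 : (x - (B : ℚ_[p])).valuation = 0 := by
        have e : ((A : ℚ_[p]) - B) + (x - A) = x - B := by ring
        rw [← e, w_add hC0 hxA (by rw [e]; exact hxB) (by rw [vC]; exact h3), vC]
      rw [h4] at hsum ⊢
      refine ⟨Even.zero, ?_, Even.zero⟩
      rw [Int.even_iff]
      omega
  · have h1 : (x - (A : ℚ_[p])).valuation = 0 := by
      have e : -(A : ℚ_[p]) + x = x - A := by ring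
      rw [← e, w_add (neg_ne_zero.2 hA0) hx (by rw [e]; exact hxA) (by rw [vA']; exact h), vA']
    have h2 : (x - (B : ℚ_[p])).valuation = 0 := by
      have e : -(B : ℚ_[p]) + x = x - B := by ring
      rw [← e, w_add (neg_ne_zero.2 hB0) hx (by rw [e]; exact hxB) (by rw [vB']; exact h), vB']
    rw [h1, h2] at hsum ⊢
    refine ⟨?_, Even.zero, Even.zero⟩
    rw [Int.even_iff]
    omega

/-- primes dividing `A` exactly once -/
theorem locQ {A B : ℤ} (hp2 : p ≠ 2) (hpA : (p : ℤ) ∣ A) (hpA2 : ¬ (p : ℤ) ^ 2 ∣ A)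
    (hpB : ¬ (p : ℤ) ∣ B) {x y : ℚ_[p]} (hy : y ≠ 0)
    (hxy : y ^ 2 = x * (x - (A : ℚ_[p])) * (x - (B : ℚ_[p]))) :
    Even (x - (B : ℚ_[p])).valuation ∧
      (Even x.valuation ↔ Even (x - (A : ℚ_[p])).valuation) ∧
      (Even x.valuation → IsSquare (x - (B : ℚ_[p]))) ∧
      (¬ Even x.valuation → IsSquare (-(B : ℚ_[p]) * (x - (B : ℚ_[p])))) := by
  have hA0 : (A : ℚ_[p]) ≠ 0 := by
    intro h
    apply hpA2
    have : A = 0 := by exact_mod_cast h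
    simp [this]
  have hB0 : (B : ℚ_[p]) ≠ 0 := by
    intro h
    apply hpB
    have : B = 0 := by exact_mod_cast h
    simp [this]
  have hy2 : y ^ 2 ≠ 0 := pow_ne_zero 2 hy
  rw [hxy] at hy2
  have hx : x ≠ 0 := left_ne_zero_of_mul (left_ne_zero_of_mul hy2)
  have hxA : x - A ≠ 0 := right_ne_zero_of_mul (left_ne_zero_of_mul hy2)
  have hxB : x - B ≠ 0 := right_ne_zero_of_mul hy2
  have vA : (A : ℚ_[p]).valuation = 1 := w_one hpA hpA2
  have vB : (B : ℚ_[p]).valuation = 0 := w_int hpB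
  have vA' : (-(A : ℚ_[p])).valuation = 1 := by rw [w_neg, vA]
  have vB' : (-(B : ℚ_[p])).valuation = 0 := by rw [w_neg, vB]
  have hsum := w_mul3 hx hxA hxB hy hxy
  have eA : x + -(A : ℚ_[p]) = x - A := by ring
  have eB : x + -(B : ℚ_[p]) = x - B := by ring
  have hdiv : ∀ a b : ℚ_[p], a ≠ 0 → b ≠ 0 → (a / b).valuation = a.valuation - b.valuation := by
    intro a b ha hb
    have h1 := w_mul (p := p) (div_ne_zero ha hb) hb
    rw [div_mul_cancel₀ _ hb] at h1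
    omega
  -- squares
  have sqA : x.valuation < 1 → ∃ u : ℚ_[p], u ≠ 0 ∧ x - A = x * u ^ 2 := by
    intro h
    have h1 : 0 < (-(A : ℚ_[p]) / x).valuation := by
      rw [hdiv _ _ (neg_ne_zero.2 hA0) hx, vA']
      omega
    obtain ⟨u, hu⟩ := sq_one_add hp2 (r := -(A : ℚ_[p]) / x) (Or.inr h1)
    have h2 : x - (A : ℚ_[p]) = x * u ^ 2 := by
      rw [pow_two, ← hu]
      field_simp
      ring
    refine ⟨u, ?_, h2⟩
    rintro rfl
    apply hxA
    rw [h2]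
    ring
  rcases lt_trichotomy x.valuation 0 with h | h | h
  · have h1 : (x - (A : ℚ_[p])).valuation = x.valuation := by
      rw [← eA]
      exact w_add hx (neg_ne_zero.2 hA0) (by rw [eA]; exact hxA) (by rw [vA']; omega)
    have h2 : (x - (B : ℚ_[p])).valuation = x.valuation := by
      rw [← eB]
      exact w_add hx (neg_ne_zero.2 hB0) (by rw [eB]; exact hxB) (by rw [vB']; exact h)
    obtain ⟨u, hu0, hu⟩ := sqA (by omega)
    have hev : Even x.valuation := by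
      rw [h1, h2] at hsum
      rw [Int.even_iff]
      omega
    rw [h1, h2]
    refine ⟨hev, Iff.rfl, fun _ => ?_, fun h => absurd hev h⟩
    refine ⟨y / (x * u), ?_⟩
    rw [← pow_two, div_pow, hxy, hu]
    field_simp
  · have h1 : (x - (A : ℚ_[p])).valuation = 0 := by
      rw [← eA, w_add hx (neg_ne_zero.2 hA0) (by rw [eA]; exact hxA) (by rw [vA', h]; norm_num), h]
    obtain ⟨u, hu0, hu⟩ := sqA (by omega)
    rw [h, h1] at hsum ⊢
    refine ⟨?_, Iff.rfl, fun _ => ?_, fun h => absurd Even.zero h⟩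
    · rw [Int.even_iff]
      omega
    · refine ⟨y / (x * u), ?_⟩
      rw [← pow_two, div_pow, hxy, hu]
      field_simp
  · have h1 : (x - (B : ℚ_[p])).valuation = 0 := by
      have e : -(B : ℚ_[p]) + x = x - B := by ring
      rw [← e, w_add (neg_ne_zero.2 hB0) hx (by rw [e]; exact hxB) (by rw [vB']; exact h), vB']
    have hodd : ¬ Even x.valuation ∧ ¬ Even (x - (A : ℚ_[p])).valuation := by
      rw [h1] at hsum
      rcases eq_or_ne x.valuation 1 with h2 | h2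
      · rw [h2] at hsum ⊢
        refine ⟨by decide, ?_⟩
        rw [Int.even_iff]
        omega
      · have h3 : (x - (A : ℚ_[p])).valuation = 1 := by
          have e : -(A : ℚ_[p]) + x = x - A := by ring
          rw [← e, w_add (neg_ne_zero.2 hA0) hx (by rw [e]; exact hxA) (by rw [vA']; omega), vA']
        rw [h3] at hsum ⊢
        refine ⟨?_, by decide⟩
        rw [Int.even_iff]
        omega
    refine ⟨by rw [h1]; exact Even.zero, ⟨fun h => absurd h hodd.1, fun h => absurd h hodd.2⟩,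
      fun h => absurd h hodd.1, fun _ => ?_⟩
    have h4 : 0 < (-x / (B : ℚ_[p])).valuation := by
      rw [hdiv _ _ (neg_ne_zero.2 hx) hB0, vB, w_neg]
      omega
    obtain ⟨u, hu⟩ := sq_one_add hp2 (r := -x / (B : ℚ_[p])) (Or.inr h4)
    refine ⟨(B : ℚ_[p]) * u, ?_⟩
    have : (B : ℚ_[p]) * u * ((B : ℚ_[p]) * u) = (B : ℚ_[p]) ^ 2 * (u * u) := by
      ring
    rw [this, ← hu]
    field_simp
    ring

end val

lemma coreQ (p : ℕ) (hp : p.Prime) (hp2 : p ≠ 2) [Fact p.Prime] (A B : ℤ) (hA : (p : ℤ) ∣ A)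
    (hA2 : ¬ (p : ℤ) ^ 2 ∣ A) (hB : ¬ (p : ℤ) ∣ B) (x x2 x3 y : ℚ_[p]) (hy : y ≠ 0)
    (h2 : x2 = x - (A : ℚ_[p])) (h3 : x3 = x - (B : ℚ_[p]))
    (h : y ^ 2 = x * x2 * x3) (e1 e2 e3 : ℤ) (r1 : Rq x e1) (r2 : Rq x2 e2)
    (r3 : Rq x3 e3) : ¬ (p : ℤ) ∣ e3 ∧ ((p : ℤ) ∣ e1 ↔ (p : ℤ) ∣ e2) ∧
    nr p e3 = if (p : ℤ) ∣ e1 then nr p (-B) else 0 := by
  subst h2 h3
  obtain ⟨l1, l2, l3, l4⟩ := locQ hp2 hA hA2 hB hy h
  have hne : x * (x - (A : ℚ_[p])) * (x - (B : ℚ_[p])) ≠ 0 := by rw [← h]; exact pow_ne_zero _ hy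
  have n1 : x ≠ 0 := left_ne_zero_of_mul (left_ne_zero_of_mul hne)
  have n2 : x - (A : ℚ_[p]) ≠ 0 := right_ne_zero_of_mul (left_ne_zero_of_mul hne)
  have n3 : x - (B : ℚ_[p]) ≠ 0 := right_ne_zero_of_mul hne
  have d1 := rq_dvd r1 n1
  have d2 := rq_dvd r2 n2
  have d3 := rq_dvd r3 n3
  have k3 : ¬ (p : ℤ) ∣ e3 := fun h => d3.1 h l1
  refine ⟨k3, by rw [d1, d2, l2], ?_⟩
  by_cases h1 : (p : ℤ) ∣ e1
  · rw [if_pos h1]
    have hB' : ¬ (p : ℤ) ∣ -B := fun h => hB (Int.dvd_neg.1 h)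
    refine rq_nr r3 n3 hB' k3 ?_
    have := l4 (d1.1 h1)
    rw [Int.cast_neg]
    exact this
  · rw [if_neg h1]
    have h11 : ¬ (p : ℤ) ∣ 1 := by
      intro h
      have h1' : (p : ℤ) ∣ ((1 : ℕ) : ℤ) := by exact_mod_cast h
      exact hp.one_lt.ne' (Nat.dvd_one.1 (Int.natCast_dvd_natCast.1 h1'))
    rw [rq_nr r3 n3 h11 k3 ?_, nr_one]
    have h5 : Even x.valuation := by
      by_contra h6
      exact h1 (d1.2 h6)
    have := l3 h5
    rw [Int.cast_one, one_mul]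
    exact this

/-- the third square class -/
lemma third {K : Type} [Field K] {m b e1 e2 e3 : ℤ} {x y : K} (h1 : (e1 : K) ≠ 0)
    (h2 : (e2 : K) ≠ 0) (hy : y ≠ 0)
    (h : y ^ 2 = x * (x - (m : K)) * (x - (b : K))) (hs1 : IsSquare (x * (e1 : K)))
    (hs2 : IsSquare ((x - (m : K)) * (e2 : K))) (hs3 : IsSquare (e1 * e2 * e3)) :
    IsSquare ((x - (b : K)) * (e3 : K)) := by
  obtain ⟨r, hr⟩ := hs1
  obtain ⟨s, hs⟩ := hs2
  obtain ⟨k, hk⟩ := hs3
  have hk' : (e1 : K) * (e2 : K) * (e3 : K) = (k : K) * (k : K) := by exact_mod_cast congrArg (fun z : ℤ => (z : K)) hk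
  have hne : x * (x - (m : K)) * (x - (b : K)) ≠ 0 := by rw [← h]; exact pow_ne_zero _ hy
  have n1 : x ≠ 0 := left_ne_zero_of_mul (left_ne_zero_of_mul hne)
  have n2 : x - (m : K) ≠ 0 := right_ne_zero_of_mul (left_ne_zero_of_mul hne)
  have hr0 : r ≠ 0 := by
    rintro rfl
    exact mul_ne_zero n1 h1 (by rw [hr]; ring)
  have hs0 : s ≠ 0 := by
    rintro rfl
    exact mul_ne_zero n2 h2 (by rw [hs]; ring)
  refine ⟨y * (k : K) / (r * s), ?_⟩
  have e : y * (k : K) / (r * s) * (y * (k : K) / (r * s)) =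
      (y ^ 2 * ((k : K) * (k : K))) / ((r * r) * (s * s)) := by
    field_simp
  rw [e, ← hk', ← hr, ← hs, h]
  field_simp

theorem lpq : S_LPQ := by
  intro o u b w g e1 e2 e3 q1 q2 q3 hsq hL
  -- the data at `p`
  have key : ∀ (p : ℕ) [Fact p.Prime], p ≠ 2 → ∃ x y : ℚ_[p], y ≠ 0 ∧
      y ^ 2 = x * (x - ((mo o u w : ℤ) : ℚ_[p])) * (x - (((b : ℕ) : ℤ) : ℚ_[p])) ∧ Rq x e1 ∧
      Rq (x - ((mo o u w : ℤ) : ℚ_[p])) e2 ∧ Rq (x - (((b : ℕ) : ℤ) : ℚ_[p])) e3 ∧ x ≠ 0 ∧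
      x - ((mo o u w : ℤ) : ℚ_[p]) ≠ 0 ∧ x - (((b : ℕ) : ℤ) : ℚ_[p]) ≠ 0 := by
    intro p hp hp2
    obtain ⟨x, y, hy, h, s1, s2⟩ := hL p hp2
    have hne := pow_ne_zero 2 hy
    rw [h] at hne
    refine ⟨x, y, hy, h, ⟨q1, s1⟩, ⟨q2, s2⟩, ⟨q3, ?_⟩, left_ne_zero_of_mul (left_ne_zero_of_mul hne),
      right_ne_zero_of_mul (left_ne_zero_of_mul hne), right_ne_zero_of_mul hne⟩
    exact third (by exact_mod_cast q1.ne_zero) (by exact_mod_cast q2.ne_zero) hy h s1 s2 hsq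
  refine ⟨?_, ?_, ?_, ?_⟩
  · intro p hp hp2 hn
    haveI : Fact p.Prime := ⟨hp⟩
    obtain ⟨x, y, hy, h, r1, r2, r3, n1, n2, n3⟩ := key p hp2
    obtain ⟨g1, g2, g3⟩ := goodQ (good_facts g o hp hp2 hn) hy h
    exact ⟨fun h1 => (rq_dvd r1 n1).1 h1 g1, fun h1 => (rq_dvd r2 n2).1 h1 g2,
      fun h1 => (rq_dvd r3 n3).1 h1 g3⟩
  · intro p hp hp2 hd
    haveI : Fact p.Prime := ⟨hp⟩
    obtain ⟨x, y, hy, h, r1, r2, r3, n1, n2, n3⟩ := key p hp2
    obtain ⟨f1, f2⟩ := mo_facts g o hp hp2 hd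
    exact coreQ p hp hp2 (mo o u w) b hd f1 f2 x _ _ y hy rfl rfl h e1 e2 e3 r1 r2 r3
  · intro p hp hp2 hd
    haveI : Fact p.Prime := ⟨hp⟩
    obtain ⟨x, y, hy, h, r1, r2, r3, n1, n2, n3⟩ := key p hp2
    obtain ⟨f1, f2⟩ := b_facts g o hp hp2 hd
    exact coreQ p hp hp2 b (mo o u w) (Int.natCast_dvd_natCast.2 hd) f1 f2 x _ _ y hy
      rfl rfl (by rw [h]; ring) e1 e3 e2 r1 r3 r2
  · intro p hp hp2 hd
    haveI : Fact p.Prime := ⟨hp⟩
    obtain ⟨x, y, hy, h, r1, r2, r3, n1, n2, n3⟩ := key p hp2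
    obtain ⟨f1, f2⟩ := n_facts g o hp hp2 hd
    have h4 := coreQ p hp hp2 ((b : ℤ) - mo o u w) (-mo o u w) hd f1 f2
      (x - ((mo o u w : ℤ) : ℚ_[p])) (x - (((b : ℕ) : ℤ) : ℚ_[p])) x y hy
      (by push_cast; ring) (by push_cast; ring) (by rw [h]; ring) e2 e3 e1 r2 r3 r1
    rw [neg_neg] at h4
    exact h4

end Pool.Agent.L0h61.RZ
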